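import Pool.Agent.helper90.FN.Spec
import Pool.Agent.helper97.HP.B6

/-!
Module fn:CA of the functional form of MP_5ae64c_pr: the a priori count.
-/

set_option autoImplicit false

open scoped BigOperators Topology
open Filter MeasureTheory

namespace Pool.Agent.helper90.FN

open Finset
open Pool.Agent.helper72.UT (IsFor dep pth rt fors Reg lz)
open Pool.Agent.helper20.HP

section

variable {V : Type} [Fintype V] [DecidableEq V]

/-- the functional counted in the statement -/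
noncomputable def CA_f (S : Finset V) (ℓ : V → ℕ) (r : ℕ) (x : V) (_ρ l : List V) : ℝ :=
  ind (x ∈ S ∧ ℓ x ≤ r) * lev (r - ℓ x) x [] l

omit [Fintype V] in
theorem CA_f_nonneg (S : Finset V) (ℓ : V → ℕ) (r : ℕ) (x : V) (ρ l : List V) :
    0 ≤ CA_f S ℓ r x ρ l := by
  unfold CA_f lev
  exact mul_nonneg (ind_nonneg _) (ind_nonneg _)

omit [Fintype V] in
theorem CA_lev_eq (q : ℕ) (x : V) (l : List V) : lev q x [] l = ind (lel x l = q) := by
  unfold lev
  apply ind_congr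
  rw [run_single_length]
  omega

omit [Fintype V] [DecidableEq V] in
theorem CA_sum_fin (D : Finset V) (g : V → ℝ) :
    ∑ i : Fin D.toList.length, g (D.toList.get i) = ∑ y ∈ D, g y := by
  rw [← Finset.sum_map_toList D g]
  exact Fin.sum_univ_fun_getElem D.toList g

theorem CA_eq (K : HW V) (D S : Finset V) (hS : S ⊆ D) (ℓ : V → ℕ) (r N : ℕ) :
    ∑ y ∈ S, ∑ t ∈ range N, (if ℓ y ≤ r then cnt K D y (r - ℓ y) t else 0)
      = km K D.toList N (CA_f S ℓ r) := by
  unfold km kmT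
  rw [Finset.sum_comm]
  refine Finset.sum_congr rfl fun t _ => ?_
  have h1 := CA_sum_fin D (fun y => W K t y (fun l => ind (∀ z ∈ l, z ∉ D.toList) *
    CA_f S ℓ r y [] l))
  have h2 : ∑ i : Fin D.toList.length, W K t (D.toList.get i)
      (fun l => ind (∀ y ∈ l, y ∉ D.toList) * CA_f S ℓ r (D.toList.get i)
        (D.toList.drop (i + 1)) l) =
      ∑ i : Fin D.toList.length, W K t (D.toList.get i)
      (fun l => ind (∀ y ∈ l, y ∉ D.toList) * CA_f S ℓ r (D.toList.get i) [] l) := rfl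
  rw [h2, h1, ← Finset.sum_subset hS]
  · refine Finset.sum_congr rfl fun y hy => ?_
    by_cases hl : ℓ y ≤ r
    · rw [if_pos hl]
      unfold cnt CA_f
      apply W_congr
      intro l _
      rw [ind_true (⟨hy, hl⟩ : y ∈ S ∧ ℓ y ≤ r), one_mul, CA_lev_eq]
      simp only [Finset.mem_toList]
    · rw [if_neg hl]
      unfold CA_f
      rw [ind_false (by tauto : ¬ (y ∈ S ∧ ℓ y ≤ r))]
      simp only [zero_mul, mul_zero]
      rw [W_const]
  · intro y _ hy
    unfold CA_f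
    rw [ind_false (by tauto : ¬ (y ∈ S ∧ ℓ y ≤ r))]
    simp only [zero_mul, mul_zero]
    rw [W_const]

theorem CA_short {K : HW V} {θ : ℝ} {h : ℕ} (hP : Par K θ h) (D S : Finset V) (hS : S ⊆ D)
    (ℓ : V → ℕ) (r T : ℕ) (hT : T ≤ Nat.sqrt (Fintype.card V)) :
    km K D.toList (T + 1) (CA_f S ℓ r) ≤ (S.card : ℝ) * CZ θ := by
  have hCZ := B6_CZ_pos hP
  rw [← CA_eq K D S hS, ← nsmul_eq_mul, ← Finset.sum_const]
  refine Finset.sum_le_sum fun y _ => ?_
  by_cases hl : ℓ y ≤ r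
  · refine le_trans ?_ (Zq_le hP T (r - ℓ y) y hT)
    unfold Zq
    refine Finset.sum_le_sum fun t _ => ?_
    rw [if_pos hl]
    unfold cnt
    apply W_mono
    intro l _
    calc _ ≤ 1 * ind (lel y l = r - ℓ y) :=
          mul_le_mul_of_nonneg_right (ind_le_one _) (ind_nonneg _)
      _ = _ := one_mul _
  · simp only [if_neg hl, Finset.sum_const_zero]
    exact hCZ.le

/-- module CA : a priori count -/
theorem CA : CA_stmt := by
  intro V _ _ K θ h hP Dd S hSD ℓ r N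
  rw [CA_eq K Dd S hSD]
  have hCZ := B6_CZ_pos hP
  have hn : 0 < Fintype.card V := hP.card_pos
  have hnR : (0 : ℝ) < (Fintype.card V : ℝ) := by exact_mod_cast hn
  have h16 := hP.h_le
  have hh1 := hP.h_pos
  have hθ := hP.one_le
  set Γ := Dd.toList with hΓdef
  have hΓ : Γ.Nodup := Dd.nodup_toList
  set L := Nat.sqrt (Fintype.card V) with hL
  set T := L / 4 with hTdef
  have hT4 : 4 * T ≤ L := by omega
  set D := T - 2 * h with hDdef
  have hD1 : 1 ≤ D := by omega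
  have hD8 : L ≤ 8 * D + 3 := by omega
  have hTpos : 1 ≤ T := by omega
  set B : ℝ := CZ θ * (θ + ((T : ℝ) + 1) * (((r : ℝ) + 1) * (3 / (2 * (Fintype.card V : ℝ)))))
    with hB
  have hBpos : 0 ≤ B := by
    rw [hB]; positivity
  have hfnn := CA_f_nonneg S ℓ r
  -- one value of `v`
  have hv : ∀ v ∈ Finset.range D, km K Γ N (CA_f S ℓ r) ≤ (S.card : ℝ) * CZ θ +
      km K Γ N (fun x ρ l0 => W K (2 * h + v) (lst x l0)
        (fun l' => ind (∀ y ∈ l', y ∉ Γ) * CA_f S ℓ r x ρ (l0 ++ l'))) := by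
    intro v hvD
    rw [Finset.mem_range] at hvD
    have h1 : km K Γ N (CA_f S ℓ r) ≤ km K Γ (N + (2 * h + v)) (CA_f S ℓ r) :=
      km_mono_N K Γ (by omega) hfnn
    rw [km_split] at h1
    have h2 : km K Γ (2 * h + v) (CA_f S ℓ r) ≤ (S.card : ℝ) * CZ θ := by
      have h3 : km K Γ (2 * h + v) (CA_f S ℓ r) ≤ km K Γ ((T - 1) + 1) (CA_f S ℓ r) :=
        km_mono_N K Γ (by omega) hfnn
      exact le_trans h3 (CA_short hP Dd S hSD ℓ r (T - 1) (by omega))
    linarith
  have hsum : (D : ℝ) * km K Γ N (CA_f S ℓ r) ≤ (D : ℝ) * ((S.card : ℝ) * CZ θ) +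
      B * (Fintype.card V : ℝ) := by
    have h1 := Finset.sum_le_sum hv
    rw [Finset.sum_const, Finset.card_range, nsmul_eq_mul, Finset.sum_add_distrib,
      Finset.sum_const, Finset.card_range, nsmul_eq_mul, ← km_sum] at h1
    have h2 : km K Γ N (fun x ρ l0 => ∑ v ∈ Finset.range D, W K (2 * h + v) (lst x l0)
        (fun l' => ind (∀ y ∈ l', y ∉ Γ) * CA_f S ℓ r x ρ (l0 ++ l')))
        ≤ km K Γ N (fun _ _ _ => B * 1) := by
      apply km_mono
      intro i l0 _ _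
      rw [mul_one]
      set x := Γ.get i with hx
      have hpt := B6_point hP Γ T (r - ℓ x) hT4 D (by omega) x [] l0 (by simp)
      have hle : CZ θ * (θ + ((T : ℝ) + 1) *
          ((((r - ℓ x : ℕ) : ℝ) + 1) * (3 / (2 * (Fintype.card V : ℝ))))) ≤ B := by
        rw [hB]
        have hr : ((r - ℓ x : ℕ) : ℝ) ≤ (r : ℝ) := by exact_mod_cast Nat.sub_le _ _
        have h5 : (0 : ℝ) ≤ 3 / (2 * (Fintype.card V : ℝ)) := by positivity
        have h6 : (((r - ℓ x : ℕ) : ℝ) + 1) * (3 / (2 * (Fintype.card V : ℝ))) ≤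
            ((r : ℝ) + 1) * (3 / (2 * (Fintype.card V : ℝ))) :=
          mul_le_mul_of_nonneg_right (by linarith) h5
        have h7 : (0 : ℝ) ≤ (T : ℝ) + 1 := by positivity
        have h8 := mul_le_mul_of_nonneg_left h6 h7
        exact mul_le_mul_of_nonneg_left (by linarith) hCZ.le
      refine le_trans ?_ (le_trans hpt hle)
      refine Finset.sum_le_sum fun v _ => ?_
      apply W_mono
      intro l' _
      apply mul_le_mul_of_nonneg_left _ (ind_nonneg _)
      unfold CA_f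
      calc _ ≤ 1 * lev (r - ℓ x) x [] (l0 ++ l') := by
            apply mul_le_mul_of_nonneg_right (ind_le_one _)
            unfold lev
            exact ind_nonneg _
        _ = _ := one_mul _
    rw [km_mul_left] at h2
    have h3 := kac K Γ hΓ N
    have h4 : B * km K Γ N (fun _ _ _ => 1) ≤ B * (Fintype.card V : ℝ) :=
      mul_le_mul_of_nonneg_left h3 hBpos
    linarith
  -- arithmetic
  have hLn : (Fintype.card V : ℝ) ≤ (L : ℝ) * (L + 2) := by
    have h1 := Nat.sqrt_le_add (Fintype.card V)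
    rw [← hL] at h1
    have h2 : (Fintype.card V : ℝ) ≤ ((L * L + L + L : ℕ) : ℝ) := by exact_mod_cast h1
    push_cast at h2
    nlinarith
  have hL16 : (16 : ℝ) ≤ (L : ℝ) := by
    have : 16 ≤ L := by omega
    exact_mod_cast this
  have hDR : (L : ℝ) ≤ 8 * (D : ℝ) + 3 := by exact_mod_cast hD8
  have hTR : 4 * (T : ℝ) ≤ (L : ℝ) := by exact_mod_cast hT4
  have hT0 : (0 : ℝ) ≤ (T : ℝ) := Nat.cast_nonneg _
  have hr0 : (0 : ℝ) ≤ (r : ℝ) := Nat.cast_nonneg _
  have hS0 : (0 : ℝ) ≤ (S.card : ℝ) := Nat.cast_nonneg _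
  have hD0 : (1 : ℝ) ≤ (D : ℝ) := by exact_mod_cast hD1
  have hBn : B * (Fintype.card V : ℝ) = CZ θ * (θ * (Fintype.card V : ℝ) +
      3 / 2 * (((T : ℝ) + 1) * ((r : ℝ) + 1))) := by
    rw [hB]; field_simp
  rw [hBn] at hsum
  -- it suffices to multiply by `D`
  have hfin : (D : ℝ) * ((S.card : ℝ) * CZ θ) + CZ θ * (θ * (Fintype.card V : ℝ) +
      3 / 2 * (((T : ℝ) + 1) * ((r : ℝ) + 1))) ≤ (D : ℝ) * (CP θ * ((S.card : ℝ) + L + r)) := by
    have hCP : CP θ = CZ θ * (13 * θ) := by unfold CP; ring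
    rw [hCP]
    have h1 : (D : ℝ) * (S.card : ℝ) + (θ * (Fintype.card V : ℝ) +
      3 / 2 * (((T : ℝ) + 1) * ((r : ℝ) + 1))) ≤
        (D : ℝ) * (13 * θ * ((S.card : ℝ) + L + r)) := by
      -- reduce to θ = 1
      have h2 : ((Fintype.card V : ℝ) +
        3 / 2 * (((T : ℝ) + 1) * ((r : ℝ) + 1))) ≤ (D : ℝ) * (13 * ((L : ℝ) + r)) := by
        have h3 : (T : ℝ) ≤ (L : ℝ) / 4 := by linarith
        have h4 : ((L : ℝ) - 3) / 8 ≤ (D : ℝ) := by linarith
        have h5 : (Fintype.card V : ℝ) + 3 / 2 * (((L : ℝ) / 4 + 1) * ((r : ℝ) + 1)) ≤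
            ((L : ℝ) - 3) / 8 * (13 * ((L : ℝ) + r)) := by
          nlinarith [mul_nonneg (sub_nonneg.mpr hL16) hr0,
            mul_nonneg (sub_nonneg.mpr hL16) (sub_nonneg.mpr hL16)]
        have h6 : 3 / 2 * (((T : ℝ) + 1) * ((r : ℝ) + 1)) ≤
            3 / 2 * (((L : ℝ) / 4 + 1) * ((r : ℝ) + 1)) := by
          nlinarith
        have h7 : 0 ≤ 13 * ((L : ℝ) + r) := by linarith
        have h8 : ((L : ℝ) - 3) / 8 * (13 * ((L : ℝ) + r)) ≤
            (D : ℝ) * (13 * ((L : ℝ) + r)) :=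
          mul_le_mul_of_nonneg_right h4 h7
        linarith
      have h3 : 0 ≤ 3 / 2 * (((T : ℝ) + 1) * ((r : ℝ) + 1)) := by positivity
      have h4 : θ * ((Fintype.card V : ℝ) +
        3 / 2 * (((T : ℝ) + 1) * ((r : ℝ) + 1))) ≤ θ * ((D : ℝ) * (13 * ((L : ℝ) + r))) :=
        mul_le_mul_of_nonneg_left h2 (by linarith)
      have h5 : 1 * (3 / 2 * (((T : ℝ) + 1) * ((r : ℝ) + 1))) ≤
        θ * (3 / 2 * (((T : ℝ) + 1) * ((r : ℝ) + 1))) :=
        mul_le_mul_of_nonneg_right hθ h3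
      have h6 : (D : ℝ) * (S.card : ℝ) ≤ (D : ℝ) * (13 * θ * (S.card : ℝ)) := by
        apply mul_le_mul_of_nonneg_left _ (by linarith)
        nlinarith
      linarith
    have h2 := mul_le_mul_of_nonneg_left h1 hCZ.le
    linarith
  have h1 : (D : ℝ) * km K Γ N (CA_f S ℓ r) ≤ (D : ℝ) * (CP θ * ((S.card : ℝ) + L + r)) :=
    le_trans hsum hfin
  exact le_of_mul_le_mul_left h1 (by linarith)

end

end Pool.Agent.helper90.FN
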